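import Mathlib
import Pool.Agent.H29.MobDefs
import Pool.Agent.H29.MobJoin

set_option autoImplicit false

namespace Pool.Agent.Results.MP_73e407_co.Three

open Pool.Agent.H29.Mob

theorem result : ∀ (V : Type) [Fintype V] (G : SimpleGraph V),
    3 ≤ G.cliqueNum → 3 ≤ mob (joinOne G) := by
  intro V _ G h
  classical
  obtain ⟨s, hs⟩ := G.exists_isNClique_cliqueNum
  obtain ⟨t, ht, hc⟩ := Finset.exists_subset_card_eq (show 3 ≤ s.card from hs.card_eq ▸ h)
  obtain ⟨a, b, c, h1, h2, h3, rfl⟩ := Finset.card_eq_three.mp hc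
  exact main G a b c (hs.isClique (ht (by simp)) (ht (by simp)) h1)
    (hs.isClique (ht (by simp)) (ht (by simp)) h2) (hs.isClique (ht (by simp)) (ht (by simp)) h3)

end Pool.Agent.Results.MP_73e407_co.Three
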